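import Pool.Agent.H62.UN.Targets

/-!
# MP_8b378c_ag, TRD: the transcendence degree of the function field of the conic bundle surface
-/

set_option autoImplicit false

namespace Pool.Agent.H56.UNT

open Polynomial Pool.Agent.H17.UN Pool.Agent.H62.UN

theorem pf_TRD : T_TRD := by
  intro k F _ _ _ P Q s y z h
  have hs : s ∈ Algebra.adjoin k (Set.range ![s, z]) :=
    Algebra.subset_adjoin ⟨0, rfl⟩
  have hz : z ∈ Algebra.adjoin k (Set.range ![s, z]) :=
    Algebra.subset_adjoin ⟨1, rfl⟩
  have hmem : ∀ x : F, x ∈ Algebra.adjoin k (Set.range ![s, z]) →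
      IsIntegral (Algebra.adjoin k (Set.range ![s, z])) x := by
    intro x hx
    exact isIntegral_algebraMap (x := (⟨x, hx⟩ : Algebra.adjoin k (Set.range ![s, z])))
  have hP : ∀ R : k[X], aeval s R ∈ Algebra.adjoin k (Set.range ![s, z]) := by
    intro R
    have h1 : aeval s R ∈ Algebra.adjoin k {s} := Polynomial.aeval_mem_adjoin_singleton k s
    have h2 : ({s} : Set F) ⊆ Set.range ![s, z] := by
      rw [Set.singleton_subset_iff]
      exact ⟨0, rfl⟩
    exact Algebra.adjoin_mono h2 h1
  have hy : IsIntegral (Algebra.adjoin k (Set.range ![s, z])) y := by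
    refine IsIntegral.of_pow two_pos (hmem _ ?_)
    rw [h.eq]
    exact add_mem (hP P) (mul_mem (hP Q) (pow_mem hz 2))
  have halg : Algebra.IsAlgebraic (Algebra.adjoin k (Set.range ![s, z])) F := by
    refine ⟨fun x => ?_⟩
    have hx : x ∈ IntermediateField.adjoin k {s, y, z} := by rw [h.gen]; trivial
    induction hx using IntermediateField.adjoin_induction with
    | mem x hx =>
      rcases hx with rfl | rfl | hx
      · exact (hmem _ hs).isAlgebraic
      · exact hy.isAlgebraic
      · rw [Set.mem_singleton_iff.1 hx]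
        exact (hmem _ hz).isAlgebraic
    | algebraMap x => exact (hmem _ (Subalgebra.algebraMap_mem _ x)).isAlgebraic
    | add x y _ _ h1 h2 => exact h1.add h2
    | inv x _ h1 => exact h1.inv
    | mul x y _ _ h1 h2 => exact h1.mul h2
  have hb : IsTranscendenceBasis k ![s, z] := h.ind.isTranscendenceBasis_iff_isAlgebraic.2 halg
  have h2 := hb.cardinalMk_eq_trdeg
  rw [← h2]
  simp

end Pool.Agent.H56.UNT
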